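import Pool.Agent.TH703.HU.Stm

/-!
# Project HU, piece C6: isoperimetric inequality in small discs
-/

set_option autoImplicit false

open MeasureTheory Set Metric Filter Topology
open scoped ENNReal Real

noncomputable section

namespace Pool.Agent.TH360.HU

open Pool.Agent.TH304.MI Pool.Agent.TH703.HU

/-- Columns of `G`. -/
def colS (G : Set ℂ) (x : ℝ) : Set ℝ := {t | (⟨x, t⟩ : ℂ) ∈ G}

/-- Rows of `G`. -/
def rowS (G : Set ℂ) (y : ℝ) : Set ℝ := {t | (⟨t, y⟩ : ℂ) ∈ G}

/-- The set in the product. -/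
def prS (G : Set ℂ) : Set (ℝ × ℝ) := {p | (⟨p.1, p.2⟩ : ℂ) ∈ G}

lemma prS_eq (G : Set ℂ) : prS G = Complex.measurableEquivRealProd.symm ⁻¹' G := by
  ext p
  simp only [prS, mem_preimage]
  rfl

lemma prS_meas {G : Set ℂ} (hG : MeasurableSet G) : MeasurableSet (prS G) := by
  rw [prS_eq]
  exact Complex.measurableEquivRealProd.symm.measurable hG

lemma vol_prS {G : Set ℂ} (hG : MeasurableSet G) : volume (prS G) = volume G := by
  rw [prS_eq]
  exact (Complex.volume_preserving_equiv_real_prod.symm).measure_preimage hG.nullMeasurableSet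

lemma col_meas {G : Set ℂ} (hG : MeasurableSet G) (x : ℝ) : MeasurableSet (colS G x) :=
  measurable_prodMk_left (prS_meas hG)

lemma row_meas {G : Set ℂ} (hG : MeasurableSet G) (y : ℝ) : MeasurableSet (rowS G y) :=
  measurable_prodMk_right (prS_meas hG)

/-- Columns of positive length. -/
def XS (G : Set ℂ) : Set ℝ := {x | 0 < volume (colS G x)}

/-- Rows of positive length. -/
def YS (G : Set ℂ) : Set ℝ := {y | 0 < volume (rowS G y)}

lemma XS_meas {G : Set ℂ} (hG : MeasurableSet G) : MeasurableSet (XS G) := by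
  have h : Measurable (fun x : ℝ => volume (Prod.mk x ⁻¹' prS G)) :=
    measurable_measure_prodMk_left (prS_meas hG)
  exact measurableSet_lt measurable_const h

lemma YS_meas {G : Set ℂ} (hG : MeasurableSet G) : MeasurableSet (YS G) := by
  have h : Measurable (fun y : ℝ => volume ((fun x => (x, y)) ⁻¹' prS G)) :=
    measurable_measure_prodMk_right (prS_meas hG)
  exact measurableSet_lt measurable_const h

/-- A planar set has at most the area of the product of its two essential projections. -/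
theorem area_le {G : Set ℂ} (hG : MeasurableSet G) :
    volume G ≤ volume (XS G) * volume (YS G) := by
  rw [← vol_prS hG]
  have h1 : volume (prS G \ (XS G ×ˢ (univ : Set ℝ))) = 0 := by
    have hm : MeasurableSet (prS G \ (XS G ×ˢ (univ : Set ℝ))) :=
      (prS_meas hG).diff ((XS_meas hG).prod MeasurableSet.univ)
    rw [Measure.volume_eq_prod, Measure.measure_prod_null hm]
    refine Filter.Eventually.of_forall fun x => ?_
    by_cases hx : x ∈ XS G
    · have : Prod.mk x ⁻¹' (prS G \ (XS G ×ˢ (univ : Set ℝ))) = ∅ := by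
        ext t; simp [hx]
      simp [this]
    · have h0 : volume (colS G x) = 0 := by
        by_contra h
        exact hx (pos_iff_ne_zero.mpr h)
      refine measure_mono_null ?_ h0
      intro t ht
      exact ht.1
  have h2 : volume (prS G \ ((univ : Set ℝ) ×ˢ YS G)) = 0 := by
    have hm : MeasurableSet (prS G \ ((univ : Set ℝ) ×ˢ YS G)) :=
      (prS_meas hG).diff (MeasurableSet.univ.prod (YS_meas hG))
    rw [Measure.volume_eq_prod, Measure.prod_apply_symm hm, lintegral_eq_zero_iff']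
    · refine Filter.Eventually.of_forall fun y => ?_
      by_cases hy : y ∈ YS G
      · have : (fun x => (x, y)) ⁻¹' (prS G \ ((univ : Set ℝ) ×ˢ YS G)) = ∅ := by
          ext t; simp [hy]
        simp [this]
      · have h0 : volume (rowS G y) = 0 := by
          by_contra h
          exact hy (pos_iff_ne_zero.mpr h)
        refine measure_mono_null ?_ h0
        intro t ht
        exact ht.1
    · exact (measurable_measure_prodMk_right hm).aemeasurable
  calc volume (prS G)
      ≤ volume ((XS G ×ˢ YS G) ∪ ((prS G \ (XS G ×ˢ (univ : Set ℝ))) ∪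
          (prS G \ ((univ : Set ℝ) ×ˢ YS G)))) := by
        refine measure_mono fun p hp => ?_
        by_cases h1 : p.1 ∈ XS G
        · by_cases h2 : p.2 ∈ YS G
          · exact Or.inl ⟨h1, h2⟩
          · exact Or.inr (Or.inr ⟨hp, fun h => h2 h.2⟩)
        · exact Or.inr (Or.inl ⟨hp, fun h => h1 h.1⟩)
    _ ≤ volume (XS G ×ˢ YS G) + (volume (prS G \ (XS G ×ˢ (univ : Set ℝ))) +
          volume (prS G \ ((univ : Set ℝ) ×ˢ YS G))) :=
        (measure_union_le _ _).trans (add_le_add le_rfl (measure_union_le _ _))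
    _ = volume (XS G) * volume (YS G) := by
        rw [h1, h2, Measure.volume_eq_prod, Measure.prod_prod]; simp

/-- The truncated weight. -/
def tr (w : ℂ → ℝ) (η : ℝ) (x : ℂ) : ℝ := max 0 (w x - η)

lemma tr_cont {w : ℂ → ℝ} (hw : Continuous w) (η : ℝ) : Continuous (tr w η) :=
  continuous_const.max (hw.sub continuous_const)

lemma tr_nonneg (w : ℂ → ℝ) (η : ℝ) (x : ℂ) : 0 ≤ tr w η x := le_max_left _ _

lemma tr_le {w : ℂ → ℝ} {η : ℝ} (hη : 0 ≤ η) {x : ℂ} (h : 0 ≤ w x) : tr w η x ≤ w x :=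
  max_le h (by linarith)

lemma tr_ge {w : ℂ → ℝ} {η κ : ℝ} {x : ℂ} (h : κ + η ≤ w x) : κ ≤ tr w η x :=
  le_max_of_le_right (by linarith)

lemma tr_tsupport {w : ℂ → ℝ} (hw : Continuous w) (η : ℝ) :
    tsupport (tr w η) ⊆ {x | η ≤ w x} := by
  refine closure_minimal ?_ (isClosed_le continuous_const hw)
  intro x hx
  by_contra h
  refine hx ?_
  have h' : w x < η := not_le.mp h
  exact max_eq_left (by linarith)

lemma DD_sub : DD ⊆ closedBall (0 : ℂ) 1 := by
  intro x hx
  rw [mem_closedBall, dist_zero_right]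
  exact (Complex.norm_le_abs_re_add_abs_im x).trans (le_of_lt hx)

lemma tr_compact {w : ℂ → ℝ} (hw : Continuous w) (hD : {x | 0 < w x} = DD) {η : ℝ} (hη : 0 < η) :
    HasCompactSupport (tr w η) := by
  refine HasCompactSupport.of_support_subset_isCompact (isCompact_closedBall (0 : ℂ) 1) ?_
  intro x hx
  have h1 : x ∈ {x | η ≤ w x} := tr_tsupport hw η (subset_tsupport _ hx)
  have h2 : x ∈ {x | 0 < w x} := lt_of_lt_of_le hη h1
  rw [hD] at h2
  exact DD_sub h2

lemma cont_row (b : ℝ) : Continuous (fun t : ℝ => (⟨t, b⟩ : ℂ)) := by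
  have h : (fun t : ℝ => (⟨t, b⟩ : ℂ)) = fun t : ℝ => (t : ℂ) + (b : ℂ) * Complex.I := by
    funext t; apply Complex.ext <;> simp
  rw [h]; fun_prop

lemma cont_col (a : ℝ) : Continuous (fun t : ℝ => (⟨a, t⟩ : ℂ)) := by
  have h : (fun t : ℝ => (⟨a, t⟩ : ℂ)) = fun t : ℝ => (a : ℂ) + (t : ℂ) * Complex.I := by
    funext t; apply Complex.ext <;> simp
  rw [h]; fun_prop

/-- **C6.** -/
theorem c6 (c0 : S_C0) (c1 : S_C1) (c2 : S_C2) (c3 : S_C3) : S_C6 := by
  obtain ⟨m₁, hm₁⟩ := c1.2
  refine ⟨max m₁ 1, ?_⟩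
  intro m hm y G P hy hGm hGs hP hPW
  have hm1 : 1 ≤ m := le_trans (le_max_right _ _) hm
  obtain ⟨-, hwc, hw0, hwle, hwD, -, hwint, -, -, -, -, -⟩ := c0 m hm1
  obtain ⟨-, hB, -⟩ := hm₁ m (le_trans (le_max_left _ _) hm)
  set r : ℝ := 1 / 20 / √m with hr
  have hsq : (1 : ℝ) ≤ √m := by
    rw [Real.one_le_sqrt]; exact_mod_cast hm1
  have hr0 : 0 < r := by positivity
  have hr1 : r ≤ 1 / 20 := by
    rw [hr]; exact div_le_self (by norm_num) hsq
  have hr3 : 3 / 20 / √m = 3 * r := by rw [hr]; ring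
  rw [hr3] at hB
  set u : ℂ → ℝ := tr (wt m) (1 / 20) with hu
  -- lower bound of `u`
  have hub : ∀ x : ℂ, |x.re| ≤ 1 / 2 + 3 * r → |x.im| ≤ 2 / 5 → 1 / 4 ≤ u x := by
    intro x h1 h2
    refine tr_ge ?_
    have := hB x h1 h2
    linarith
  have huc : Continuous u := tr_cont hwc _
  have hsub0 : {x | (1 / 20 : ℝ) ≤ wt m x} ⊆ {x | 0 < wt m x} := by
    intro x hx
    have hx' : (1 / 20 : ℝ) ≤ wt m x := hx
    show 0 < wt m x
    linarith
  have key := c2 (wt m) u G P hwc hw0 huc (tr_compact hwc hwD (by norm_num))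
    ((tr_tsupport hwc _).trans hsub0)
    (tr_nonneg _ _) (fun x => tr_le (by norm_num) (hw0 x)) hGm hPW
  -- location of `G`
  have hloc : ∀ a b : ℝ, (⟨a, b⟩ : ℂ) ∈ G → |a - (1 / 2 + r)| < r ∧ |b - y| < r := by
    intro a b hab
    have h := hGs hab
    rw [mem_ball, dist_eq_norm] at h
    constructor
    · refine lt_of_le_of_lt ?_ h
      have := Complex.abs_re_le_norm ((⟨a, b⟩ : ℂ) - ⟨1 / 2 + r, y⟩)
      simpa using this
    · refine lt_of_le_of_lt ?_ h
      have := Complex.abs_im_le_norm ((⟨a, b⟩ : ℂ) - ⟨1 / 2 + r, y⟩)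
      simpa using this
  have hy' := abs_le.mp hy
  -- rows
  have hrow : ∀ b ∈ YS G, ENNReal.ofReal (1 / 2) ≤
      ev (fun t => u ⟨t, b⟩) {t | (⟨t, b⟩ : ℂ) ∈ G} := by
    intro b hb
    have hc : Continuous (fun t : ℝ => u ⟨t, b⟩) := huc.comp (cont_row b)
    have hne : (rowS G b).Nonempty := nonempty_of_measure_ne_zero (ne_of_gt hb)
    obtain ⟨t0, ht0⟩ := hne
    have hby := abs_lt.mp (hloc t0 b ht0).2
    have hsub : rowS G b ⊆ Ioo (1 / 2) (1 / 2 + 2 * r) := by
      intro t ht
      have h := abs_lt.mp (hloc t b ht).1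
      exact ⟨by linarith [h.1], by linarith [h.2]⟩
    have h3 := (c3 (fun t => u ⟨t, b⟩) (rowS G b) hc (fun t => tr_nonneg _ _ _)
      (row_meas hGm b)).2.2 (1 / 4) (1 / 2) (1 / 2 + 2 * r) (1 / 2 + 3 * r) (1 / 4)
      (by norm_num) (by linarith) (by linarith) (by norm_num) ?_ ?_ ?_ ?_
    · rw [show (2 : ℝ) * (1 / 4) = 1 / 2 by norm_num] at h3
      exact h3
    · intro t ht
      refine hub _ ?_ ?_
      · show |t| ≤ _
        rw [abs_le]; exact ⟨by linarith [ht.1], by linarith [ht.2]⟩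
      · show |b| ≤ _
        rw [abs_le]; exact ⟨by linarith [hby.1, hy'.1], by linarith [hby.2, hy'.2]⟩
    · have : Ioo (1 / 4 : ℝ) (1 / 2) \ rowS G b = Ioo (1 / 4 : ℝ) (1 / 2) := by
        rw [sdiff_eq_left, disjoint_left]
        intro t ht1 ht2
        exact absurd (hsub ht2).1 (not_lt.mpr ht1.2.le)
      rw [this, Real.volume_Ioo]
      exact ENNReal.ofReal_pos.mpr (by norm_num)
    · rw [inter_eq_left.mpr hsub]; exact hb
    · have : Ioo (1 / 2 + 2 * r) (1 / 2 + 3 * r) \ rowS G b = Ioo (1 / 2 + 2 * r) (1 / 2 + 3 * r) := by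
        rw [sdiff_eq_left, disjoint_left]
        intro t ht1 ht2
        exact absurd (hsub ht2).2 (not_lt.mpr ht1.1.le)
      rw [this, Real.volume_Ioo]
      exact ENNReal.ofReal_pos.mpr (by linarith)
  -- columns
  have hcol : ∀ a ∈ XS G, ENNReal.ofReal (1 / 2) ≤
      ev (fun t => u ⟨a, t⟩) {t | (⟨a, t⟩ : ℂ) ∈ G} := by
    intro a ha
    have hc : Continuous (fun t : ℝ => u ⟨a, t⟩) := huc.comp (cont_col a)
    have hne : (colS G a).Nonempty := nonempty_of_measure_ne_zero (ne_of_gt ha)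
    obtain ⟨t0, ht0⟩ := hne
    have hay := abs_lt.mp (hloc a t0 ht0).1
    have hsub : colS G a ⊆ Ioo (y - r) (y + r) := by
      intro t ht
      have h := abs_lt.mp (hloc a t ht).2
      exact ⟨by linarith [h.1], by linarith [h.2]⟩
    have h3 := (c3 (fun t => u ⟨a, t⟩) (colS G a) hc (fun t => tr_nonneg _ _ _)
      (col_meas hGm a)).2.2 (-(2 / 5)) (y - r) (y + r) (2 / 5) (1 / 4)
      (by linarith) (by linarith) (by linarith) (by norm_num) ?_ ?_ ?_ ?_
    · rw [show (2 : ℝ) * (1 / 4) = 1 / 2 by norm_num] at h3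
      exact h3
    · intro t ht
      refine hub _ ?_ ?_
      · show |a| ≤ _
        rw [abs_le]; exact ⟨by linarith [hay.1], by linarith [hay.2]⟩
      · show |t| ≤ _
        rw [abs_le]; exact ⟨by linarith [ht.1], by linarith [ht.2]⟩
    · have : Ioo (-(2 / 5)) (y - r) \ colS G a = Ioo (-(2 / 5)) (y - r) := by
        rw [sdiff_eq_left, disjoint_left]
        intro t ht1 ht2
        exact absurd (hsub ht2).1 (not_lt.mpr ht1.2.le)
      rw [this, Real.volume_Ioo]
      exact ENNReal.ofReal_pos.mpr (by linarith)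
    · rw [inter_eq_left.mpr hsub]; exact ha
    · have : Ioo (y + r) (2 / 5) \ colS G a = Ioo (y + r) (2 / 5) := by
        rw [sdiff_eq_left, disjoint_left]
        intro t ht1 ht2
        exact absurd (hsub ht2).2 (not_lt.mpr ht1.1.le)
      rw [this, Real.volume_Ioo]
      exact ENNReal.ofReal_pos.mpr (by linarith)
  -- integrate
  have hI1 : ENNReal.ofReal (1 / 2) * volume (YS G) ≤
      ∫⁻ b : ℝ, ev (fun t => u ⟨t, b⟩) {t | (⟨t, b⟩ : ℂ) ∈ G} := by
    rw [← lintegral_indicator_const (YS_meas hGm)]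
    refine lintegral_mono fun b => ?_
    by_cases hb : b ∈ YS G
    · rw [indicator_of_mem hb]; exact hrow b hb
    · rw [indicator_of_notMem hb]; exact bot_le
  have hI2 : ENNReal.ofReal (1 / 2) * volume (XS G) ≤
      ∫⁻ a : ℝ, ev (fun t => u ⟨a, t⟩) {t | (⟨a, t⟩ : ℂ) ∈ G} := by
    rw [← lintegral_indicator_const (XS_meas hGm)]
    refine lintegral_mono fun a => ?_
    by_cases ha : a ∈ XS G
    · rw [indicator_of_mem ha]; exact hcol a ha
    · rw [indicator_of_notMem ha]; exact bot_le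
  have hI := (add_le_add hI1 hI2).trans key
  have hh : ENNReal.ofReal (1 / 2) ≠ 0 := by simp
  have hYf : volume (YS G) ≠ ∞ := by
    intro h
    rw [h, ENNReal.mul_top hh, top_add] at hI
    exact absurd hI (not_le.mpr ENNReal.ofReal_lt_top)
  have hXf : volume (XS G) ≠ ∞ := by
    intro h
    rw [h, ENNReal.mul_top hh, add_top] at hI
    exact absurd hI (not_le.mpr ENNReal.ofReal_lt_top)
  set l1 : ℝ := (volume (XS G)).toReal with hl1
  set l2 : ℝ := (volume (YS G)).toReal with hl2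
  have hl10 : 0 ≤ l1 := ENNReal.toReal_nonneg
  have hl20 : 0 ≤ l2 := ENNReal.toReal_nonneg
  have hX : volume (XS G) = ENNReal.ofReal l1 := (ENNReal.ofReal_toReal hXf).symm
  have hY : volume (YS G) = ENNReal.ofReal l2 := (ENNReal.ofReal_toReal hYf).symm
  have hsum : 1 / 2 * l2 + 1 / 2 * l1 ≤ √2 * P := by
    rw [hX, hY, ← ENNReal.ofReal_mul (by norm_num), ← ENNReal.ofReal_mul (by norm_num),
      ← ENNReal.ofReal_add (by positivity) (by positivity),
      ENNReal.ofReal_le_ofReal_iff (by positivity)] at hI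
    exact hI
  have hvol : volume G ≤ ENNReal.ofReal (l1 * l2) := by
    refine (area_le hGm).trans ?_
    rw [hX, hY, ENNReal.ofReal_mul hl10]
  have hGf : volume G ≠ ∞ := ne_top_of_le_ne_top ENNReal.ofReal_ne_top hvol
  have hmu : mu (wt m) G ≤ l1 * l2 := by
    have h1 : mu (wt m) G ≤ ∫ _ in G, (1 : ℝ) := by
      refine setIntegral_mono_on hwint.integrableOn ?_ hGm fun x _ => hwle x
      exact integrableOn_const hGf
    refine h1.trans ?_
    rw [setIntegral_const, smul_eq_mul, mul_one]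
    exact ENNReal.toReal_le_of_le_ofReal (by positivity) hvol
  have hs : √(mu (wt m) G) ≤ √2 * P := by
    refine (Real.sqrt_le_sqrt hmu).trans ?_
    rw [Real.sqrt_le_left (by positivity)]
    nlinarith [sq_nonneg (l1 - l2)]
  have h2 : √2 ≤ 10 / 7 := by
    rw [Real.sqrt_le_left (by norm_num)]; norm_num
  nlinarith [hs, mul_le_mul_of_nonneg_right h2 hP]

end Pool.Agent.TH360.HU
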